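import Pool.Agent.helper64.D2.SpecC

set_option autoImplicit false

open Filter Topology
open scoped commutatorElement

namespace Pool.Agent.helper64.D2

theorem PAS_half1 (X : ℝ → ℝ) (x : ℝ) : deriv (fun x => X x / 2) x = deriv X x / 2 :=
  deriv_div_const 2

theorem PAS_half2 (X : ℝ → ℝ) (x : ℝ) : d2 (fun x => X x / 2) x = d2 X x / 2 := by
  have h : deriv (fun x => X x / 2) = fun x => deriv X x / 2 := funext (PAS_half1 X)
  unfold d2
  rw [h]
  exact deriv_div_const 2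

/-- **PAS**: one averaging step, assembled. -/
theorem PAS (hSTP : STP_stmt) (hGST : GST_stmt) (hSMA : SMA_stmt) (hDIF : DIF_stmt) (hSZC : SZC_stmt) : PAS_stmt := by
  obtain ⟨C, hC, hT, -⟩ := hSMA
  refine ⟨C, hC, ?_⟩
  intro R X p q a L lam θ hR hX hlam hlam8 ha0 ha hL hp hpq hq hθ hCθ
  obtain ⟨hXc, hXs, hXa, hXL⟩ := hX
  have hC0 : 0 < C := by linarith
  have hθC : |θ| ≤ 1 / C := by
    rw [abs_of_pos hθ, le_div_iff₀ hC0]
    linarith
  obtain ⟨T, hT1, hT2⟩ := hT θ hθC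
  rw [abs_of_pos hθ] at hT2
  have hout : ∀ x, x ∉ Set.Ioo (0 : ℝ) 1 → X x / 2 = 0 := by
    intro x hx
    rw [hXs x (fun h => hx ⟨by linarith [h.1], by linarith [h.2]⟩), zero_div]
  obtain ⟨h, hh⟩ := hDIF (fun x => X x / 2) (hXc.div_const 2) hout (fun x => by
    rw [PAS_half1, abs_div, abs_of_pos (by norm_num : (0 : ℝ) < 2)]
    linarith [hlam x])
  obtain ⟨v, X', hv1, hv2, -, hX'c, hv4, -, hX's, hX'1, hX'2, hX'3, hX'4⟩ :=
    hSTP X p q a L lam θ hXc hXs hlam hXa hXL hlam8 ha hL hθ.le hpq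
  have hrep := hGST R T h X v X' θ p q hR hh hXc hXs hpq (fun y hy => hT1 y ⟨by linarith [hy.1], by linarith [hy.2]⟩) hv1 hv2
  obtain ⟨hS1, -, hS3, hS4, -⟩ := hSZC
  have hszR : Sz R a := by
    intro x
    rw [(hS1 R X hR).2.2.2 x]
    exact hXa x
  have hszh : Sz h (a / 2) := by
    intro x
    rw [(hS1 h _ hh).2.2.2 x, PAS_half2, abs_div, abs_of_pos (by norm_num : (0 : ℝ) < 2)]
    linarith [hXa x]
  have hszi : Sz h⁻¹ a := by
    have := hS4 h (a / 2) hszh (by linarith)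
    rwa [show 2 * (a / 2) = a by ring] at this
  have hszx : Sz (R * h⁻¹) (3 * a) := by
    have := hS3 R h⁻¹ a a hszR hszi ha ha
    intro x
    refine (this x).trans ?_
    nlinarith
  refine ⟨T, R * h⁻¹, X', v, hrep, ⟨hX'c, hX's, hX'3, hX'4⟩, hX'1, hT2, hszx, fun u => ⟨hv4 u, hX'2 u⟩⟩

end Pool.Agent.helper64.D2
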